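import Pool.Agent.W447.LT.Stm

/-!
The reduction is computable (MP_b2749c_lc, part COMPUT).
-/

set_option autoImplicit false

namespace Pool.Agent.W397.LT

open Pool.Agent.W447.LT

theorem prim_pow2 : Primrec (fun n : ℕ => 2 ^ n) := by
  have h : Primrec (fun n : ℕ => Nat.rec (motive := fun _ => ℕ) 1 (fun _ y => y * 2) n) :=
    Primrec.nat_rec₁ 1 (Primrec.nat_mul.comp Primrec.snd (Primrec.const 2)).to₂
  refine h.of_eq fun n => ?_
  induction n with
  | zero => rfl
  | succ n ih =>
    rw [pow_succ, ← ih]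

theorem prim_replicate {α : Type} [Primcodable α] (a : α) {f : ℕ → ℕ} (hf : Primrec f) :
    Primrec (fun n : ℕ => List.replicate (f n) a) := by
  have h : Primrec (fun n : ℕ => (List.range (f n)).map (fun _ => a)) :=
    Primrec.list_map (Primrec.list_range.comp hf) (Primrec.const a).to₂
  refine h.of_eq fun n => ?_
  simp

theorem prim_winv : Primrec (fun w : List (ℕ × Bool) => winv w) := by
  have h : Primrec (fun w : List (ℕ × Bool) => (w.map fun s => (s.1, !s.2)).reverse) :=
    Primrec.list_reverse.comp (Primrec.list_map Primrec.id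
      (Primrec.pair (Primrec.fst.comp Primrec.snd)
        (Primrec.not.comp (Primrec.snd.comp Primrec.snd))).to₂)
  exact h

/-- numerical initial word -/
def nI (ea em eb el : ℕ) (n : ℕ) : List (ℕ × Bool) :=
  (ea, true) :: (List.replicate (2 ^ n) (em, true) ++ (ea, true) ::
    (List.replicate n [(eb, true), (el, true)]).flatten)

theorem prim_nI (ea em eb el : ℕ) : Primrec (nI ea em eb el) := by
  have h1 : Primrec (fun n : ℕ => List.replicate (2 ^ n) ((em, true) : ℕ × Bool)) :=
    prim_replicate _ prim_pow2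
  have h2 : Primrec (fun n : ℕ =>
      (List.replicate n ([(eb, true), (el, true)] : List (ℕ × Bool))).flatten) :=
    Primrec.list_flatten.comp (prim_replicate _ Primrec.id)
  have h3 := Primrec.list_cons.comp (Primrec.const ((ea, true) : ℕ × Bool)) h2
  have h4 := Primrec.list_append.comp h1 h3
  exact Primrec.list_cons.comp (Primrec.const ((ea, true) : ℕ × Bool)) h4

/-- numerical configuration word -/
def nC (ea em eb el ez : ℕ) (n : ℕ) : List (ℕ × Bool) :=
  winv (nI ea em eb el n) ++ (ez, true) :: nI ea em eb el n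

theorem prim_nC (ea em eb el ez : ℕ) : Primrec (nC ea em eb el ez) := by
  have h1 := prim_nI ea em eb el
  exact Primrec.list_append.comp (prim_winv.comp h1)
    (Primrec.list_cons.comp (Primrec.const ((ez, true) : ℕ × Bool)) h1)

/-- numerical section -/
def nS (ea em eb el ez en : ℕ) (n : ℕ) : List (ℕ × Bool) :=
  (en, true) :: (nC ea em eb el ez n ++ (en, true) :: winv (nC ea em eb el ez n))

theorem prim_nS (ea em eb el ez en : ℕ) : Primrec (nS ea em eb el ez en) := by
  have h1 := prim_nC ea em eb el ez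
  exact Primrec.list_cons.comp (Primrec.const ((en, true) : ℕ × Bool))
    (Primrec.list_append.comp h1
      (Primrec.list_cons.comp (Primrec.const ((en, true) : ℕ × Bool)) (prim_winv.comp h1)))

theorem ew_winv {Γ : Type} {k : ℕ} (e : Γ ≃ Fin k) (w : W Γ) :
    ew e (winv w) = winv (ew e w) := by
  simp [ew, winv, Function.comp_def]

theorem ew_append {Γ : Type} {k : ℕ} (e : Γ ≃ Fin k) (u w : W Γ) :
    ew e (u ++ w) = ew e u ++ ew e w := by
  simp [ew]

theorem ew_cons {Γ : Type} {k : ℕ} (e : Γ ≃ Fin k) (s : Γ × Bool) (w : W Γ) :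
    ew e (s :: w) = ((e s.1 : ℕ), s.2) :: ew e w := by
  simp [ew]

theorem upw_winv {Γ : Type} (w : W Γ) : upw (winv w) = winv (upw w) := by
  simp [upw, winv, Function.comp_def]

theorem upw_append {Γ : Type} (u w : W Γ) : upw (u ++ w) = upw u ++ upw w := by
  simp [upw]

theorem upw_cons {Γ : Type} (s : Γ × Bool) (w : W Γ) :
    upw (s :: w) = (some s.1, s.2) :: upw w := by
  simp [upw]

theorem ew_iw {N : ℕ} {S : Type} (r0 : Fin N) {k : ℕ} (e : Option (Gn N S) ≃ Fin k) (n : ℕ) :
    ew e (upw (iw (S := S) r0 n)) =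
      nI (e (some Gn.al)) (e (some Gn.mu)) (e (some (Gn.be (Pi.single r0 1))))
        (e (some Gn.la)) n := by
  simp [iw, nI, ew, upw, List.map_flatten]

theorem ew_cw {N : ℕ} {S : Type} (s0 : S) (r0 : Fin N) {k : ℕ} (e : Option (Gn N S) ≃ Fin k)
    (n : ℕ) :
    ew e (upw (cw s0 r0 n)) =
      nC (e (some Gn.al)) (e (some Gn.mu)) (e (some (Gn.be (Pi.single r0 1))))
        (e (some Gn.la)) (e (some (Gn.z s0))) n := by
  rw [cw, upw_append, upw_cons, upw_winv, ew_append, ew_cons, ew_winv, ew_iw, nC]

theorem main : COMPUT := by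
  intro N S δ s0 r0 k d e c
  apply Primrec.to_comp
  unfold code
  refine Primrec.pair (Primrec.const d) ?_
  refine Primrec.list_ofFn fun i => ?_
  refine Primrec.list_ofFn fun x => ?_
  rcases h : e.symm i with _ | g
  · refine Primrec.pair
      (Primrec.const ((c (flipAt (Sum.inr 0 : A N) (c.symm x)) : ℕ))) ?_
    by_cases hx : (c.symm x).1 = Sum.inl 0
    · refine (prim_nS (e (some Gn.al)) (e (some Gn.mu)) (e (some (Gn.be (Pi.single r0 1))))
        (e (some Gn.la)) (e (some (Gn.z s0))) (e none)).of_eq fun n => ?_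
      show _ = ew e (if (c.symm x).1 = Sum.inl 0 then
        (none, true) :: (upw (cw s0 r0 n) ++ (none, true) :: winv (upw (cw s0 r0 n))) else [])
      rw [if_pos hx, ew_cons, ew_append, ew_cons, ew_winv, ew_cw, nS]
    · refine (Primrec.const ([] : List (ℕ × Bool))).of_eq fun n => ?_
      show _ = ew e (if (c.symm x).1 = Sum.inl 0 then
        (none, true) :: (upw (cw s0 r0 n) ++ (none, true) :: winv (upw (cw s0 r0 n))) else [])
      rw [if_neg hx]
      rfl
  · exact Primrec.const
      (((c ((((base δ).perm g).prodCongr (Equiv.refl Bool)) (c.symm x)) : ℕ),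
        ew e (upw ((base δ).sec g (c.symm x).1))) : ℕ × List (ℕ × Bool))

end Pool.Agent.W397.LT
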